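import Mathlib
import Pool.Agent.W146.SH.Main

/-!
# Shanks' asymptotics for first occurrences of gaps in sieved random models (helper146)

A sieve level is a function `z : ℕ → ℕ`.  In the sieved model of level `z` (Cramer for `z = 0`,
Granville for `z` about `log n`) an integer `n` of the dyadic block `[2 ^ k, 2 ^ (k + 1))` is never
kept when it has a prime factor `≤ z k`, and otherwise it is kept, independently, with probability
`min 1 (1 / (V (z k) * log n))`, where `V z = ∏_{p ≤ z} (1 - 1/p)`.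

For a set `S` of natural numbers let `p(g) = runEnd S g` be the first element of `S` which follows a
run of at least `g` consecutive non-elements.  Shanks' conjecture says `log p(g) ~ √g` for the primes.
We decide for which levels `z = n ^ {o(1)}` this is true in the model.

The lower bound machine and the bounds for the number of candidates are those of helper150
(`MP_f9960f_nt.SievedModels`).
-/

set_option autoImplicit false

namespace Pool.Agent.Results.MP_926cc3_nt.SievedModels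

open MeasureTheory ProbabilityTheory Filter Topology
open Pool.Agent.H318R2.Cr Pool.Agent.W150.SM Pool.Agent.W146.SH

theorem small_of_tendsto {z : ℕ → ℕ}
    (h : Tendsto (fun k : ℕ => Real.log (z k) / Real.log k) atTop (𝓝 0)) {ε : ℝ} (hε : 0 < ε) :
    ∀ᶠ k : ℕ in atTop, (z k : ℝ) ≤ (k : ℝ) ^ ε := by
  filter_upwards [h.eventually (ge_mem_nhds hε), eventually_ge_atTop 2] with k h1 h2
  have hk : (2 : ℝ) ≤ k := by exact_mod_cast h2
  have hl : 0 < Real.log k := Real.log_pos (by linarith)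
  rcases Nat.eq_zero_or_pos (z k) with h0 | h0
  · rw [h0]
    push_cast
    positivity
  · have hz0 : (0 : ℝ) < z k := by exact_mod_cast h0
    rw [div_le_iff₀ hl] at h1
    rw [← Real.log_le_log_iff hz0 (by positivity), Real.log_rpow (by linarith)]
    exact h1

theorem large_of_not {z : ℕ → ℕ}
    (h : ¬ Tendsto (fun k : ℕ => Real.log (z k) / Real.log k) atTop (𝓝 0)) :
    ∃ ε : ℝ, 0 < ε ∧ ∃ᶠ k : ℕ in atTop, (k : ℝ) ^ ε ≤ z k := by
  by_contra hcon
  apply h
  rw [Metric.tendsto_nhds]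
  intro ε hε
  have h1 : ∀ᶠ k : ℕ in atTop, ¬ (k : ℝ) ^ (ε / 2) ≤ z k := by
    by_contra hc
    rw [not_eventually] at hc
    exact hcon ⟨ε / 2, by positivity, hc.mono fun k hk => not_not.1 hk⟩
  filter_upwards [h1, eventually_ge_atTop 2] with k h2 h3
  rw [not_le] at h2
  have hk : (2 : ℝ) ≤ k := by exact_mod_cast h3
  have hl : 0 < Real.log k := Real.log_pos (by linarith)
  have hlz : 0 ≤ Real.log (z k) := Real.log_natCast_nonneg _
  rw [Real.dist_eq, sub_zero, abs_of_nonneg (by positivity), div_lt_iff₀ hl]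
  rcases Nat.eq_zero_or_pos (z k) with h0 | h0
  · rw [h0]
    simp only [Nat.cast_zero, Real.log_zero]
    positivity
  · have hz0 : (0 : ℝ) < z k := by exact_mod_cast h0
    have h4 : Real.log (z k) ≤ Real.log ((k : ℝ) ^ (ε / 2)) := Real.log_le_log hz0 h2.le
    rw [Real.log_rpow (by linarith)] at h4
    nlinarith

/-- the lower bound for Shanks' function when the sieve level is small -/
theorem lower_ae (η : ℝ) (hη : 0 < η) : ∃ ε : ℝ, 0 < ε ∧ ∀ z : ℕ → ℕ,
    (∀ᶠ k : ℕ in atTop, (z k : ℝ) ≤ (k : ℝ) ^ ε) →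
    ∀ (Ω : Type) [MeasurableSpace Ω] (μ : Measure Ω) [IsProbabilityMeasure μ] (A : ℕ → Set Ω),
    IsSievedModel μ z A →
      ∀ᵐ ω ∂μ, ∀ᶠ g : ℕ in atTop, (1 - η) * √(g : ℝ) ≤ Real.log (runEnd {n | ω ∈ A n} g) := by
  obtain ⟨ε, hε, hd⟩ := upper η hη
  refine ⟨ε, hε, fun z hz Ω _ μ _ A hA => ?_⟩
  have hz' := log_of_small hz
  filter_upwards [hd z hz Ω μ A hA, infinite_ae hz' hA,
    runEnd_ae hz' hA one_pos fun lam h1 h2 => ⟨1, one_pos, by linarith, few_one z lam⟩] with ω h1 h2 h3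
  have h4 := lower_det h2 (show 1 + η < 1 + 2 * η by linarith) h1
    ((h3 1 one_pos).mono fun g hg => hg.1)
  filter_upwards [h4] with g hg
  have h5 : √(1 + 2 * η) ≤ 1 + η := by
    rw [show 1 + η = √((1 + η) ^ 2) by rw [Real.sqrt_sq (by linarith)]]
    apply Real.sqrt_le_sqrt
    nlinarith
  have h6 : 0 ≤ Real.log (runEnd {n | ω ∈ A n} g) := Real.log_natCast_nonneg _
  have h7 : √(g : ℝ) ≤ (1 + η) * Real.log (runEnd {n | ω ∈ A n} g) := hg.trans (by gcongr)
  have h8 : 0 ≤ √(g : ℝ) := Real.sqrt_nonneg _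
  rcases le_or_gt 1 η with h9 | h9
  · have : (1 - η) * √(g : ℝ) ≤ 0 := mul_nonpos_of_nonpos_of_nonneg (by linarith) h8
    linarith
  · have h10 : (1 - η) * √(g : ℝ) ≤ (1 - η) * ((1 + η) * Real.log (runEnd {n | ω ∈ A n} g)) := by
      apply mul_le_mul_of_nonneg_left h7 (by linarith)
    have h11 : (1 - η) * ((1 + η) * Real.log (runEnd {n | ω ∈ A n} g)) ≤
        Real.log (runEnd {n | ω ∈ A n} g) := by
      have h12 : (1 - η) * (1 + η) ≤ 1 := by nlinarith
      calc (1 - η) * ((1 + η) * Real.log (runEnd {n | ω ∈ A n} g))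
          = ((1 - η) * (1 + η)) * Real.log (runEnd {n | ω ∈ A n} g) := by ring
        _ ≤ 1 * Real.log (runEnd {n | ω ∈ A n} g) := by gcongr
        _ = _ := one_mul _
    exact h10.trans h11

/-- **Shanks' conjecture in the sieved random models of the primes.** -/
theorem result :
    -- the models exist at every level
    (∀ z : ℕ → ℕ, ∃ μ : Measure (ℕ → Bool), IsProbabilityMeasure μ ∧
      IsSievedModel μ z (fun n => {ω | ω n = true})) ∧
    -- for every level `z = n ^ {o(1)}` and every model of that level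
    (∀ z : ℕ → ℕ, Tendsto (fun k : ℕ => Real.log (z k) / k) atTop (𝓝 0) →
      ∀ (Ω : Type) [MeasurableSpace Ω] (μ : Measure Ω) [IsProbabilityMeasure μ] (A : ℕ → Set Ω),
      IsSievedModel μ z A →
        -- `p(g)` is defined for all large `g` and `log p(g) ≤ (1 + o(1)) √g`
        (∀ᵐ ω ∂μ, ∀ η : ℝ, 0 < η → ∀ᶠ g : ℕ in atTop, runEnd {n | ω ∈ A n} g ∈ runs {n | ω ∈ A n} g ∧
          Real.log (runEnd {n | ω ∈ A n} g) ≤ (1 + η) * √(g : ℝ)) ∧
        -- Shanks' asymptotics holds almost surely if `z = (log n) ^ {o(1)}`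
        (Tendsto (fun k : ℕ => Real.log (z k) / Real.log k) atTop (𝓝 0) →
          ∀ᵐ ω ∂μ, Tendsto (fun g : ℕ => Real.log (runEnd {n | ω ∈ A n} g) / √(g : ℝ)) atTop (𝓝 1)) ∧
        -- and fails almost surely otherwise
        (¬ Tendsto (fun k : ℕ => Real.log (z k) / Real.log k) atTop (𝓝 0) →
          ∀ᵐ ω ∂μ, ¬ Tendsto (fun g : ℕ => Real.log (runEnd {n | ω ∈ A n} g) / √(g : ℝ)) atTop (𝓝 1)) ∧
        -- at the levels `≥ (log n) ^ {1 - o(1)}` the upper limit is at most `√(e ^ γ / 2) < 1`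
        ((∀ ε : ℝ, 0 < ε → ∀ᶠ k : ℕ in atTop, (k : ℝ) ^ (1 - ε) ≤ z k) →
          ∀ᵐ ω ∂μ, ∀ η : ℝ, 0 < η → ∀ᶠ g : ℕ in atTop, Real.log (runEnd {n | ω ∈ A n} g) ≤
            (√(Real.exp Real.eulerMascheroniConstant / 2) + η) * √(g : ℝ))) ∧
    √(Real.exp Real.eulerMascheroniConstant / 2) < 1 ∧
    -- uniformly at the levels `≥ (log n) ^ ε` the upper limit is less than one
    (∀ ε : ℝ, 0 < ε → ∃ δ : ℝ, 0 < δ ∧ ∀ z : ℕ → ℕ,
      Tendsto (fun k : ℕ => Real.log (z k) / k) atTop (𝓝 0) →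
      (∀ᶠ k : ℕ in atTop, (k : ℝ) ^ ε ≤ z k) →
      ∀ (Ω : Type) [MeasurableSpace Ω] (μ : Measure Ω) [IsProbabilityMeasure μ] (A : ℕ → Set Ω),
      IsSievedModel μ z A →
        ∀ᵐ ω ∂μ, ∀ᶠ g : ℕ in atTop, Real.log (runEnd {n | ω ∈ A n} g) ≤ (1 - δ) * √(g : ℝ)) ∧
    -- uniformly at the levels `≤ (log n) ^ ε` the limits are close to one
    (∀ η : ℝ, 0 < η → ∃ ε : ℝ, 0 < ε ∧ ∀ z : ℕ → ℕ,
      (∀ᶠ k : ℕ in atTop, (z k : ℝ) ≤ (k : ℝ) ^ ε) →
      ∀ (Ω : Type) [MeasurableSpace Ω] (μ : Measure Ω) [IsProbabilityMeasure μ] (A : ℕ → Set Ω),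
      IsSievedModel μ z A →
        ∀ᵐ ω ∂μ, ∀ᶠ g : ℕ in atTop, (1 - η) * √(g : ℝ) ≤ Real.log (runEnd {n | ω ∈ A n} g)) := by
  have hpos : ∀ᶠ g : ℕ in atTop, 0 < √(g : ℝ) := by
    filter_upwards [eventually_gt_atTop 0] with g hg
    have : (0 : ℝ) < g := by exact_mod_cast hg
    positivity
  refine ⟨exists_model, fun z hz Ω _ μ _ A hA => ⟨?_, ?_, ?_, ?_⟩, ?_, ?_, lower_ae⟩
  · filter_upwards [runEnd_ae hz hA one_pos fun lam h1 h2 => ⟨1, one_pos, by linarith, few_one z lam⟩]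
      with ω h1 η hη
    have h2 := h1 η hη
    rwa [Real.sqrt_one, div_one] at h2
  · intro ht
    have h1 : ∀ᵐ ω ∂μ, ∀ n : ℕ, ∀ᶠ g : ℕ in atTop,
        (1 - 1 / ((n : ℝ) + 1)) * √(g : ℝ) ≤ Real.log (runEnd {n | ω ∈ A n} g) := by
      rw [ae_all_iff]
      intro n
      obtain ⟨ε, hε, hd⟩ := lower_ae (1 / ((n : ℝ) + 1)) (by positivity)
      exact hd z (small_of_tendsto ht hε) Ω μ A hA
    filter_upwards [h1, runEnd_ae hz hA one_pos fun lam h1 h2 => ⟨1, one_pos, by linarith, few_one z lam⟩]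
      with ω h2 h3
    rw [Metric.tendsto_nhds]
    intro η hη
    obtain ⟨n, hn⟩ := exists_nat_one_div_lt hη
    filter_upwards [h2 n, h3 (η / 2) (by positivity), hpos] with g h4 h5 h6
    have h7 := h5.2
    rw [Real.sqrt_one, div_one] at h7
    rw [Real.dist_eq, abs_lt]
    constructor
    · rw [lt_sub_iff_add_lt, lt_div_iff₀ h6]
      refine lt_of_lt_of_le ?_ h4
      apply mul_lt_mul_of_pos_right _ h6
      linarith
    · rw [sub_lt_iff_lt_add, div_lt_iff₀ h6]
      refine lt_of_le_of_lt h7 ?_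
      apply mul_lt_mul_of_pos_right _ h6
      linarith
  · intro hnt
    obtain ⟨ε, hε, hfr⟩ := large_of_not hnt
    obtain ⟨δ, hδ, hd⟩ := ge_delta ε hε
    filter_upwards [hd z hz hfr Ω μ A hA, infinite_ae hz hA] with ω h1 h2 h3
    -- choose `β < 1` with `1 / β² < 1 + δ / 2`
    obtain ⟨β, hβ0, hβ1, hβ⟩ : ∃ β : ℝ, 0 < β ∧ β < 1 ∧ 1 / β ^ 2 < 1 + δ / 2 := by
      have h4 : Tendsto (fun β : ℝ => 1 / β ^ 2) (𝓝[<] 1) (𝓝 (1 / 1 ^ 2)) := by
        apply Tendsto.mono_left _ nhdsWithin_le_nhds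
        exact (continuousAt_const.div (continuousAt_id.pow 2) (by norm_num)).tendsto
      have h5 : ∀ᶠ β : ℝ in 𝓝[<] 1, 1 / β ^ 2 < 1 + δ / 2 :=
        h4.eventually (gt_mem_nhds (by linarith))
      have h6 : ∀ᶠ β : ℝ in 𝓝[<] 1, 0 < β :=
        nhdsWithin_le_nhds (lt_mem_nhds (show (0 : ℝ) < 1 by norm_num))
      obtain ⟨β, h7, h8, h9⟩ := (h5.and (h6.and self_mem_nhdsWithin)).exists
      exact ⟨β, h8, h9, h7⟩
    have h4 : ∀ᶠ g : ℕ in atTop, β * √(g : ℝ) ≤ Real.log (runEnd {n | ω ∈ A n} g) := by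
      filter_upwards [h3.eventually (lt_mem_nhds hβ1), hpos] with g h5 h6
      rw [lt_div_iff₀ h6] at h5
      exact h5.le
    have h5 := cramer_le h2 hβ0 hβ h4
    have h6 := h1.trans h5
    rw [EReal.coe_le_coe_iff] at h6
    linarith
  · intro hfr
    have hL : 0 < 2 * Real.exp (-Real.eulerMascheroniConstant) := by positivity
    filter_upwards [runEnd_ae hz hA hL fun lam h1 h2 => few_gamma hfr h1 h2] with ω h1 η hη
    filter_upwards [h1 η hη] with g hg
    refine hg.2.trans (le_of_eq ?_)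
    congr 2
    rw [Real.exp_neg, one_div, ← Real.sqrt_inv]
    congr 1
    field_simp
  · rw [Real.sqrt_lt' one_pos, one_pow, div_lt_one (by norm_num)]
    · have h1 := Real.eulerMascheroniConstant_lt_two_thirds
      have h2 := Real.log_two_gt_d9
      calc Real.exp Real.eulerMascheroniConstant < Real.exp (Real.log 2) :=
            Real.exp_lt_exp.2 (by linarith)
        _ = 2 := Real.exp_log (by norm_num)
  · intro ε hε
    obtain ⟨δ₀, h1, h2, h3⟩ := few_delta ε hε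
    have hpos' : 0 < 1 - δ₀ := by linarith
    have hs1 : √(1 - δ₀) < 1 := by
      rw [Real.sqrt_lt' one_pos]
      linarith
    have hs0 : 0 < √(1 - δ₀) := Real.sqrt_pos.2 hpos'
    refine ⟨(1 - √(1 - δ₀)) / 2, by linarith, fun z hz hfr Ω _ μ _ A hA => ?_⟩
    have hL : 0 < 1 / (1 - δ₀) := by positivity
    filter_upwards [runEnd_ae hz hA hL fun lam h4 h5 => ⟨1 - δ₀, hpos', by
      rw [lt_div_iff₀ hpos'] at h5
      linarith, h3 z hfr lam h4⟩] with ω h4
    filter_upwards [h4 ((1 - √(1 - δ₀)) / 2) (by linarith)] with g hg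
    refine hg.2.trans (le_of_eq ?_)
    congr 1
    rw [one_div, ← Real.sqrt_inv, one_div, inv_inv]
    ring

end Pool.Agent.Results.MP_926cc3_nt.SievedModels
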